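import Mathlib

set_option autoImplicit false
set_option linter.unusedVariables false

namespace Pool.Agent.DA19

abbrev W : Type := ℕ → ℕ → ℚ

open Classical in
/-- partial shift selected by a predicate -/
noncomputable def op (P : ℕ → ℕ → Prop) : Module.End ℚ W where
  toFun φ := fun c i => if P c i then φ c (i + 1) else 0
  map_add' a b := by
    funext c i
    by_cases h : P c i <;> simp [h]
  map_smul' r a := by
    funext c i
    by_cases h : P c i <;> simp [h]

def py (c i : ℕ) : Prop := (c + 1) ∣ i ∧ i < c * (c + 1)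
def px (c i : ℕ) : Prop := ¬ (c + 1) ∣ i ∧ i < c * (c + 1)

noncomputable def Y : Module.End ℚ W := op py
noncomputable def X : Module.End ℚ W := op px

open Classical in
theorem Y_apply (φ : W) (c i : ℕ) : Y φ c i = if py c i then φ c (i + 1) else 0 := rfl

open Classical in
theorem X_apply (φ : W) (c i : ℕ) : X φ c i = if px c i then φ c (i + 1) else 0 := rfl

open Classical in
theorem Xpow_apply (b : ℕ) (φ : W) (c i : ℕ) :
    (X ^ b) φ c i = if (∀ s < b, px c (i + s)) then φ c (i + b) else 0 := by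
  induction b generalizing i with
  | zero => simp
  | succ b ih =>
    rw [pow_succ', Module.End.mul_apply, X_apply]
    by_cases h : px c i
    · rw [if_pos h, ih]
      have : (∀ s < b, px c (i + 1 + s)) ↔ (∀ s < b + 1, px c (i + s)) := by
        constructor
        · intro h1 s hs
          rcases s with _ | s
          · exact h
          · have := h1 s (by omega)
            rwa [show i + 1 + s = i + (s + 1) by ring] at this
        · intro h1 s hs
          have := h1 (s + 1) (by omega)
          rwa [show i + 1 + s = i + (s + 1) by ring]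
      rw [show i + 1 + b = i + (b + 1) by ring]
      simp only [this]
    · rw [if_neg h, if_neg]
      intro h1
      exact h (by simpa using h1 0 (by omega))

theorem YXY (b c i : ℕ) (hbc : b ≠ c) (φ : W) : Y ((X ^ b) (Y φ)) c i = 0 := by
  classical
  rw [Y_apply]
  split_ifs with h1
  · rw [Xpow_apply]
    split_ifs with h2
    · rw [Y_apply]
      split_ifs with h3
      · exfalso
        have hd : (c + 1) ∣ (b + 1) := by
          have := (Nat.dvd_add_right h1.1).1 (by
            have := h3.1
            rwa [show i + 1 + b = i + (b + 1) by ring] at this)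
          exact this
        have hle : c + 1 ≤ b + 1 := Nat.le_of_dvd (by omega) hd
        have hlt : c < b := by omega
        apply (h2 c hlt).1
        rw [show i + 1 + c = i + (c + 1) by ring]
        exact (Nat.dvd_add_right h1.1).2 (dvd_refl _)
      · rfl
    · rfl
  · rfl

theorem rel (n b : ℕ) (h : n ≠ b) : Y * X ^ n * Y * X ^ b * Y = 0 := by
  classical
  apply LinearMap.ext
  intro φ
  funext c i
  show Y ((X ^ n) (Y ((X ^ b) (Y φ)))) c i = 0
  by_cases hn : n = c
  · rw [Y_apply]
    split_ifs with h1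
    · rw [Xpow_apply]
      split_ifs with h2
      · exact YXY b c _ (by omega) φ
      · rfl
    · rfl
  · exact YXY n c i hn _

/-- weak monotonicity -/
def Wk (a : Module.End ℚ W) : Prop :=
  ∀ (φ : W) (c i : ℕ), (∀ i' ≥ i, φ c i' = 0) → a φ c i = 0

theorem Wk_op (P : ℕ → ℕ → Prop) : Wk (op P) := by
  classical
  intro φ c i h
  show (if P c i then φ c (i + 1) else 0) = 0
  split_ifs
  · exact h _ (by omega)
  · rfl

/-- the algebra -/
noncomputable def AA : Subalgebra ℚ (Module.End ℚ W) := Algebra.adjoin ℚ {X, Y}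

theorem Wk_mul (a b : Module.End ℚ W) (ha : Wk a) (hb : Wk b) : Wk (a * b) := by
  intro φ c i h
  show a (b φ) c i = 0
  apply ha
  intro i' hi'
  apply hb
  intro i'' hi''
  exact h _ (by omega)

theorem Wk_mem (a : Module.End ℚ W) (ha : a ∈ AA) : Wk a := by
  unfold AA at ha
  induction ha using Algebra.adjoin_induction with
  | mem x hx =>
    rcases hx with rfl | rfl
    · exact Wk_op _
    · exact Wk_op _
  | algebraMap r =>
    intro φ c i h
    show (r • φ) c i = 0
    show r * φ c i = 0
    rw [h i le_rfl, mul_zero]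
  | add x y _ _ hx hy =>
    intro φ c i h
    show x φ c i + y φ c i = 0
    rw [hx φ c i h, hy φ c i h, add_zero]
  | mul x y _ _ hx hy => exact Wk_mul x y hx hy

abbrev A : Type := ↥AA

noncomputable def x' : A := ⟨X, Algebra.subset_adjoin (by simp)⟩
noncomputable def y' : A := ⟨Y, Algebra.subset_adjoin (by simp)⟩

/-- membership predicate of the nilpotent ideals -/
def Pn (n : ℕ) (a : A) : Prop :=
  (∀ (φ : W) (c i : ℕ), c ≠ n → a.1 φ c i = 0) ∧
  (∀ (φ : W) (i : ℕ), (∀ i' > i, φ n i' = 0) → a.1 φ n i = 0) ∧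
  (∀ (φ : W) (i : ℕ), n * (n + 1) ≤ i → a.1 φ n i = 0)

noncomputable def I (n : ℕ) : TwoSidedIdeal A := TwoSidedIdeal.mk' {a | Pn n a}
  ⟨fun _ _ _ _ => rfl, fun _ _ _ => rfl, fun _ _ _ => rfl⟩
  (by
    rintro a b ⟨h1, h2, h3⟩ ⟨h4, h5, h6⟩
    refine ⟨?_, ?_, ?_⟩
    · intro φ c i h
      show a.1 φ c i + b.1 φ c i = 0
      rw [h1 φ c i h, h4 φ c i h, add_zero]
    · intro φ i h
      show a.1 φ n i + b.1 φ n i = 0
      rw [h2 φ i h, h5 φ i h, add_zero]
    · intro φ i h
      show a.1 φ n i + b.1 φ n i = 0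
      rw [h3 φ i h, h6 φ i h, add_zero])
  (by
    rintro a ⟨h1, h2, h3⟩
    refine ⟨?_, ?_, ?_⟩
    · intro φ c i h
      show - a.1 φ c i = 0
      rw [h1 φ c i h, neg_zero]
    · intro φ i h
      show - a.1 φ n i = 0
      rw [h2 φ i h, neg_zero]
    · intro φ i h
      show - a.1 φ n i = 0
      rw [h3 φ i h, neg_zero])
  (by
    rintro r a ⟨h1, h2, h3⟩
    have hr := Wk_mem r.1 r.2
    refine ⟨?_, ?_, ?_⟩
    · intro φ c i h
      exact hr (a.1 φ) c i (fun i' _ => h1 φ c i' h)
    · intro φ i h
      exact hr (a.1 φ) n i (fun i' hi' => h2 φ i' (fun j hj => h j (by omega)))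
    · intro φ i h
      exact hr (a.1 φ) n i (fun i' hi' => h3 φ i' (by omega)))
  (by
    rintro a r ⟨h1, h2, h3⟩
    have hr := Wk_mem r.1 r.2
    refine ⟨?_, ?_, ?_⟩
    · intro φ c i h
      exact h1 (r.1 φ) c i h
    · intro φ i h
      exact h2 (r.1 φ) i (fun i' hi' => hr φ n i' (fun j hj => h j (by omega)))
    · intro φ i h
      exact h3 (r.1 φ) i h)

theorem mem_I (n : ℕ) (a : A) : a ∈ I n ↔ Pn n a := by
  unfold I
  rw [TwoSidedIdeal.mem_mk']
  rfl

theorem prod_zero (n : ℕ) (l : List A) (hl : ∀ a ∈ l, Pn n a) (hne : l ≠ []) (φ : W) (i : ℕ)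
    (hi : n * (n + 1) + 1 ≤ i + l.length) : l.prod.1 φ n i = 0 := by
  induction l generalizing i with
  | nil => exact absurd rfl hne
  | cons a l ih =>
    obtain ⟨h1, h2, h3⟩ := hl a (by simp)
    rw [List.prod_cons]
    show a.1 (l.prod.1 φ) n i = 0
    by_cases hl0 : l = []
    · subst hl0
      apply h3
      simp at hi
      exact hi
    · apply h2
      intro i' hi'
      apply ih (fun b hb => hl b (by simp [hb])) hl0
      simp only [List.length_cons] at hi
      omega

theorem nil_I (n : ℕ) (f : Fin (n * (n + 1) + 1) → A) (hf : ∀ i, f i ∈ I n) :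
    (List.ofFn f).prod = 0 := by
  apply Subtype.ext
  apply LinearMap.ext
  intro φ
  funext c i
  show (List.ofFn f).prod.1 φ c i = 0
  have hall : ∀ a ∈ List.ofFn f, Pn n a := by
    intro a ha
    obtain ⟨j, rfl⟩ := (List.mem_ofFn' f a).1 ha
    exact (mem_I n _).1 (hf j)
  by_cases hc : c = n
  · subst hc
    apply prod_zero c _ hall
    · intro h
      have := congrArg List.length h
      rw [List.length_ofFn] at this
      simp at this
    · rw [List.length_ofFn]
      omega
  · rw [List.ofFn_succ, List.prod_cons]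
    exact ((mem_I n _).1 (hf 0)).1 _ c i hc

/-- special elements -/
noncomputable def g (n : ℕ) : A := (y' * x' ^ n) * (y' * x' ^ n)

theorem g_mem (n : ℕ) : g n ∈ I n := by
  classical
  rw [mem_I]
  have hg : ∀ φ : W, (g n).1 φ = Y ((X ^ n) (Y ((X ^ n) φ))) := fun φ => rfl
  refine ⟨?_, ?_, ?_⟩
  · intro φ c i h
    rw [hg]
    exact YXY n c i (Ne.symm h) _
  · intro φ i h
    rw [hg, Y_apply]
    split_ifs
    · have hw : Wk ((X ^ n) * (Y * (X ^ n)) : Module.End ℚ W) :=
        Wk_mem _ (x' ^ n * (y' * x' ^ n)).2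
      exact hw φ n (i + 1) (fun i' hi' => h i' (by omega))
    · rfl
  · intro φ i h
    rw [hg, Y_apply, if_neg]
    rintro ⟨_, h2⟩
    omega

theorem nonvanish (n j : ℕ) (t : ℕ) (h : t + j ≤ n) :
    ((Y * X ^ n) ^ j) (fun _ _ => (1:ℚ)) n (t * (n + 1)) = 1 := by
  classical
  induction j generalizing t with
  | zero => simp
  | succ j ih =>
    rw [pow_succ', Module.End.mul_apply, Module.End.mul_apply, Y_apply, if_pos, Xpow_apply, if_pos]
    · have := ih (t + 1) (by omega)
      rw [show t * (n + 1) + 1 + n = (t + 1) * (n + 1) by ring]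
      exact this
    · intro s hs
      refine ⟨?_, ?_⟩
      · intro hd
        have h2 : (n + 1) ∣ (s + 1) := by
          have := (Nat.dvd_add_right (dvd_mul_left (n + 1) t)).1 (by
            rwa [show t * (n + 1) + 1 + s = t * (n + 1) + (s + 1) by ring] at hd)
          exact this
        have := Nat.le_of_dvd (by omega) h2
        omega
      · have h1 : (t + 1) * (n + 1) ≤ n * (n + 1) := Nat.mul_le_mul_right _ (by omega)
        have h2 : (t + 1) * (n + 1) = t * (n + 1) + (n + 1) := by ring
        omega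
    · refine ⟨dvd_mul_left _ _, ?_⟩
      exact Nat.mul_lt_mul_of_pos_right (by omega) (by omega)

/-- spanning set -/
noncomputable def F (p : ℕ × ℕ × ℕ × ℕ) : A :=
  x' ^ p.1 * (y' * x' ^ p.2.1) ^ p.2.2.1 * y' * x' ^ p.2.2.2

open Finset in
noncomputable def S (m : ℕ) : Finset A := by
  classical
  exact ((range (m + 1)).image (fun b => x' ^ b)) ∪
    ((range (m + 1) ×ˢ (range (m + 1) ×ˢ (range (m + 1) ×ˢ range (m + 1)))).image F)

theorem S_card (m : ℕ) : (S m).card ≤ 2 * (m + 1) ^ 4 := by
  classical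
  unfold S
  refine (Finset.card_union_le _ _).trans ?_
  have h1 := Finset.card_image_le (s := Finset.range (m + 1)) (f := fun b => (x' ^ b : A))
  have h2 := Finset.card_image_le (s := (Finset.range (m + 1) ×ˢ (Finset.range (m + 1) ×ˢ
    (Finset.range (m + 1) ×ˢ Finset.range (m + 1))))) (f := F)
  simp only [Finset.card_product, Finset.card_range] at h1 h2
  have h3 : (m + 1) ≤ (m + 1) ^ 4 := Nat.le_self_pow (by norm_num) _
  have h4 : (m + 1) * ((m + 1) * ((m + 1) * (m + 1))) = (m + 1) ^ 4 := by ring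
  omega

theorem S_x (m b : ℕ) (h : b ≤ m) : x' ^ b ∈ S m := by
  classical
  unfold S
  rw [Finset.mem_union]
  left
  rw [Finset.mem_image]
  exact ⟨b, by simp; omega, rfl⟩

theorem S_F (m a n j b : ℕ) (h1 : a ≤ m) (h2 : n ≤ m) (h3 : j ≤ m) (h4 : b ≤ m) :
    x' ^ a * (y' * x' ^ n) ^ j * y' * x' ^ b ∈ S m := by
  classical
  unfold S
  rw [Finset.mem_union]
  right
  rw [Finset.mem_image]
  refine ⟨(a, n, j, b), ?_, rfl⟩
  simp only [Finset.mem_product, Finset.mem_range]
  omega

theorem S_cases (m : ℕ) (z : A) (hz : z ∈ S m) : (∃ b ≤ m, z = x' ^ b) ∨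
    (∃ a n j b, a ≤ m ∧ n ≤ m ∧ j ≤ m ∧ b ≤ m ∧ z = x' ^ a * (y' * x' ^ n) ^ j * y' * x' ^ b) := by
  classical
  unfold S at hz
  rw [Finset.mem_union, Finset.mem_image, Finset.mem_image] at hz
  rcases hz with ⟨b, hb, rfl⟩ | ⟨⟨a, n, j, b⟩, hb, rfl⟩
  · left
    exact ⟨b, by simpa [Nat.lt_succ_iff] using hb, rfl⟩
  · right
    simp only [Finset.mem_product, Finset.mem_range] at hb
    exact ⟨a, n, j, b, by omega, by omega, by omega, by omega, rfl⟩

theorem rel' (n b : ℕ) (h : n ≠ b) : (y' * x' ^ n * y' * x' ^ b * y' : A) = 0 :=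
  Subtype.ext (rel n b h)

theorem S_step (m : ℕ) (z w : A) (hz : z ∈ S m) (hw : w = 1 ∨ w = x' ∨ w = y') :
    z * w = 0 ∨ z * w ∈ S (m + 1) := by
  rcases S_cases m z hz with ⟨b, hb, rfl⟩ | ⟨a, n, j, b, ha, hn, hj, hb, rfl⟩
  · rcases hw with rfl | rfl | rfl
    · right; rw [mul_one]; exact S_x _ _ (by omega)
    · right; rw [← pow_succ]; exact S_x _ _ (by omega)
    · right
      have := S_F (m + 1) b 0 0 0 (by omega) (by omega) (by omega) (by omega)
      simpa using this
  · rcases hw with rfl | rfl | rfl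
    · right; rw [mul_one]; exact S_F _ _ _ _ _ (by omega) (by omega) (by omega) (by omega)
    · right; rw [mul_assoc, ← pow_succ]
      exact S_F _ _ _ _ _ (by omega) (by omega) (by omega) (by omega)
    · rcases j with _ | j
      · right
        have := S_F (m + 1) a b 1 0 (by omega) (by omega) (by omega) (by omega)
        simpa [mul_assoc] using this
      · by_cases hnb : n = b
        · right
          subst hnb
          have := S_F (m + 1) a n (j + 2) 0 (by omega) (by omega) (by omega) (by omega)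
          rw [pow_zero, mul_one] at this
          have h2 : x' ^ a * (y' * x' ^ n) ^ (j + 1) * y' * x' ^ n * y' =
              x' ^ a * (y' * x' ^ n) ^ (j + 2) * y' := by
            rw [pow_succ (y' * x' ^ n) (j + 1)]
            simp only [mul_assoc]
          rw [h2]
          exact this
        · left
          have h2 : x' ^ a * (y' * x' ^ n) ^ (j + 1) * y' * x' ^ b * y' =
              x' ^ a * (y' * x' ^ n) ^ j * (y' * x' ^ n * y' * x' ^ b * y') := by
            rw [pow_succ (y' * x' ^ n) j]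
            simp only [mul_assoc]
          rw [h2, rel' n b hnb, mul_zero]

noncomputable def V : Submodule ℚ A := Submodule.span ℚ {1, x', y'}

theorem V_pow (m : ℕ) : V ^ m ≤ Submodule.span ℚ (S m : Set A) := by
  induction m with
  | zero =>
    rw [pow_zero, Submodule.one_eq_span]
    apply Submodule.span_mono
    rintro _ rfl
    have := S_x 0 0 le_rfl
    simpa using this
  | succ m ih =>
    rw [pow_succ]
    refine (mul_le_mul' ih (le_refl V)).trans ?_
    unfold V
    rw [Submodule.span_mul_span, Submodule.span_le]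
    rintro _ ⟨z, hz, w, hw, rfl⟩
    have hw' : w = 1 ∨ w = x' ∨ w = y' := by simpa using hw
    rcases S_step m z w hz hw' with h | h
    · simp only [h]
      exact Submodule.zero_mem _
    · exact Submodule.subset_span h

theorem V_finrank (m : ℕ) : Module.finrank ℚ ↥(V ^ m) ≤ 2 * (m + 1) ^ 4 := by
  have : Module.Finite ℚ ↥(Submodule.span ℚ (S m : Set A)) :=
    Module.Finite.span_of_finite ℚ (S m).finite_toSet
  exact (Submodule.finrank_mono (V_pow m)).trans ((finrank_span_finset_le_card (S m)).trans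
    (S_card m))

theorem gen : Algebra.adjoin ℚ ({x', y'} : Set A) = ⊤ := by
  have h := Algebra.adjoin_adjoin_coe_preimage (R := ℚ) (s := ({X, Y} : Set (Module.End ℚ W)))
  have h2 : (Subtype.val ⁻¹' ({X, Y} : Set (Module.End ℚ W)) : Set A) = {x', y'} := by
    ext z
    simp only [Set.mem_preimage, Set.mem_insert_iff, Set.mem_singleton_iff]
    constructor
    · rintro (h | h)
      · left; exact Subtype.ext h
      · right; exact Subtype.ext h
    · rintro (rfl | rfl)
      · left; rfl
      · right; rfl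
  rw [← h2]
  exact h

theorem main : ¬ (∀ (k : Type) [Field k] (A : Type) [Ring A] [Algebra k A],
      Algebra.FiniteType k A →
      (∃ V : Submodule k A, FiniteDimensional k V ∧ (1 : A) ∈ V ∧
          Algebra.adjoin k (V : Set A) = ⊤ ∧
          ∃ C d : ℕ, ∀ n : ℕ, Module.finrank k ↥(V ^ n) ≤ C * (n + 1) ^ d) →
      ∃ N : TwoSidedIdeal A,
        (∃ m : ℕ, ∀ f : Fin m → A, (∀ i, f i ∈ N) → (List.ofFn f).prod = 0) ∧
        ∀ I : TwoSidedIdeal A,
          (∃ m : ℕ, ∀ f : Fin m → A, (∀ i, f i ∈ I) → (List.ofFn f).prod = 0) → I ≤ N) := by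
  intro H
  obtain ⟨N, ⟨m, hm⟩, hN⟩ := H ℚ A ⟨Subalgebra.fg_def.2 ⟨{x', y'}, Set.toFinite _, gen⟩⟩ ⟨V, by
      unfold V
      exact FiniteDimensional.span_of_finite ℚ (Set.toFinite ({1, x', y'} : Set A)), Submodule.subset_span (by simp), by
      rw [eq_top_iff, ← gen]
      apply Algebra.adjoin_mono
      intro z hz
      apply Submodule.subset_span
      rcases hz with rfl | rfl
      · simp
      · simp, 2, 4, V_finrank⟩
  have h1 : g (2 * m) ∈ N := hN (I (2 * m)) ⟨_, nil_I (2 * m)⟩ (g_mem (2 * m))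
  have h2 := hm (fun _ => g (2 * m)) (fun _ => h1)
  rw [List.ofFn_const, List.prod_replicate] at h2
  have h3 : (g (2 * m) ^ m : A).1 = (Y * X ^ (2 * m)) ^ (2 * m) := by
    show ((Y * X ^ (2 * m)) * (Y * X ^ (2 * m))) ^ m = _
    rw [← pow_two, ← pow_mul]
  have h4 := nonvanish (2 * m) (2 * m) 0 (by omega)
  rw [← h3, h2] at h4
  simp at h4

end Pool.Agent.DA19
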